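import Pool.Agent.X112.HP.Stm

/-!
# Project HP, part LAT: the lattice argument
-/

set_option autoImplicit false

namespace Pool.Agent.X255.HP

open Finset Pool.Agent.X112.HP

variable {n m : ℕ} {A : Fin m → Matrix (Fin n) (Fin n) ℝ}

theorem P_append (A : Fin m → Matrix (Fin n) (Fin n) ℝ) (w w' : List (Fin m)) : P A (w ++ w') = P A w * P A w' := by
  unfold P
  rw [List.map_append, List.prod_append]

theorem P_cons (A : Fin m → Matrix (Fin n) (Fin n) ℝ) (k : Fin m) (w : List (Fin m)) : P A (k :: w) = A k * P A w := by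
  unfold P
  rw [List.map_cons, List.prod_cons]

theorem P_nonneg (hA : ∀ k i j, 0 ≤ A k i j) (w : List (Fin m)) (i j : Fin n) : 0 ≤ P A w i j := by
  induction w generalizing i with
  | nil =>
    show 0 ≤ (1 : Matrix (Fin n) (Fin n) ℝ) i j
    rw [Matrix.one_apply]
    split_ifs
    · exact zero_le_one
    · exact le_rfl
  | cons k w ih =>
    rw [P_cons, Matrix.mul_apply]
    exact Finset.sum_nonneg fun x _ => mul_nonneg (hA k i x) (ih x)

theorem pos_append (hA : ∀ k i j, 0 ≤ A k i j) {w w' : List (Fin m)} {i x j : Fin n} (h : 0 < P A w i x)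
    (h' : 0 < P A w' x j) : 0 < P A (w ++ w') i j := by
  rw [P_append, Matrix.mul_apply]
  refine Finset.sum_pos' (fun y _ => mul_nonneg (P_nonneg hA w i y) (P_nonneg hA w' y j)) ⟨x, Finset.mem_univ _, ?_⟩
  exact mul_pos h h'

theorem pos_single (k : Fin m) (i j : Fin n) (h : 0 < A k i j) : 0 < P A [k] i j := by
  have h1 : P A [k] = A k := by
    unfold P
    simp
  rw [h1]
  exact h

theorem exists_of_pos_cons (hA : ∀ k i j, 0 ≤ A k i j) {k : Fin m} {w : List (Fin m)} {i j : Fin n}
    (h : 0 < P A (k :: w) i j) : ∃ x, 0 < A k i x ∧ 0 < P A w x j := by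
  rw [P_cons, Matrix.mul_apply] at h
  by_contra hcon
  push Not at hcon
  have h1 : ∑ x, A k i x * P A w x j ≤ 0 := by
    refine Finset.sum_nonpos fun x _ => ?_
    rcases (hA k i x).eq_or_lt with h0 | h0
    · rw [← h0, zero_mul]
    · have h2 := hcon x h0
      exact mul_nonpos_of_nonneg_of_nonpos h0.le h2
  linarith

theorem cnt_append (w w' : List (Fin m)) : cnt (w ++ w') = cnt w + cnt w' := by
  funext k
  simp only [cnt, Pi.add_apply, List.count_append]
  push_cast
  ring

theorem cnt_nil : cnt ([] : List (Fin m)) = 0 := by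
  funext k
  simp [cnt]

theorem cnt_single (k : Fin m) : cnt [k] = Pi.single k 1 := by
  funext l
  unfold cnt
  by_cases h : l = k
  · subst h
    simp
  · rw [Pi.single_eq_of_ne h, List.count_eq_zero_of_not_mem (by simpa using h)]
    rfl

theorem t_LAT : Pool.Agent.X112.HP.S_LAT := by
  intro n m A hA o r s hr hs α hα k hk
  set L := AddSubgroup.closure {v | ∃ w : List (Fin m), w.length ≤ 2 * n ∧ 0 < P A w o o ∧ v = cnt w} with hL
  have hmem : ∀ w : List (Fin m), w.length ≤ 2 * n → 0 < P A w o o → cnt w ∈ L := fun w h1 h2 =>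
    AddSubgroup.subset_closure ⟨w, h1, h2, rfl⟩
  have ha : ∀ j, cnt (r j) + cnt (s j) ∈ L := by
    intro j
    rw [← cnt_append]
    refine hmem _ ?_ (pos_append hA (hr j).2 (hs j).2)
    rw [List.length_append]
    have := (hr j).1
    have := (hs j).1
    omega
  have hb : ∀ i j k, 0 < A k i j → (Pi.single k 1 : Fin m → ℤ) - (cnt (r j) - cnt (r i)) ∈ L := by
    intro i j k hij
    have h1 : cnt (r i ++ [k] ++ s j) ∈ L := by
      refine hmem _ ?_ (pos_append hA (pos_append hA (hr i).2 (pos_single k i j hij)) (hs j).2)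
      rw [List.length_append, List.length_append, List.length_singleton]
      have := (hr i).1
      have := (hs j).1
      omega
    rw [cnt_append, cnt_append, cnt_single] at h1
    have h2 := L.sub_mem h1 (ha j)
    have h3 : cnt (r i) + (Pi.single k 1 : Fin m → ℤ) + cnt (s j) - (cnt (r j) + cnt (s j)) =
        (Pi.single k 1 : Fin m → ℤ) - (cnt (r j) - cnt (r i)) := by abel
    rwa [h3] at h2
  have hc : ∀ (w : List (Fin m)) (i j : Fin n), 0 < P A w i j → cnt w - (cnt (r j) - cnt (r i)) ∈ L := by
    intro w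
    induction w with
    | nil =>
      intro i j h
      have h1 : i = j := by
        by_contra hne
        have h2 : P A [] i j = (1 : Matrix (Fin n) (Fin n) ℝ) i j := rfl
        rw [h2, Matrix.one_apply_ne hne] at h
        exact lt_irrefl _ h
      rw [h1, cnt_nil, sub_self, sub_zero]
      exact L.zero_mem
    | cons k w ih =>
      intro i j h
      obtain ⟨x, hx1, hx2⟩ := exists_of_pos_cons hA h
      have h1 := L.add_mem (hb i x k hx1) (ih x j hx2)
      have h2 : cnt (k :: w) = (Pi.single k 1 : Fin m → ℤ) + cnt w := by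
        rw [← cnt_single, ← cnt_append]
        rfl
      have h3 : (Pi.single k 1 : Fin m → ℤ) - (cnt (r x) - cnt (r i)) + (cnt w - (cnt (r j) - cnt (r x))) =
          cnt (k :: w) - (cnt (r j) - cnt (r i)) := by
        rw [h2]
        abel
      rwa [h3] at h1
  have hd : ∀ i j, (fun k => (α k : ℤ)) - (cnt (r j) - cnt (r i)) ∈ L := by
    intro i j
    obtain ⟨w, hw1, hw2⟩ := hα i j
    have h1 := hc w i j hw2
    have h2 : cnt w = fun k => (α k : ℤ) := by
      funext k
      unfold cnt
      rw [hw1 k]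
    rwa [h2] at h1
  obtain ⟨i, j, hij⟩ := hk
  have h1 := hd i j
  have h2 := hd o o
  rw [sub_self, sub_zero] at h2
  have h3 := L.sub_mem h2 h1
  rw [sub_sub_cancel] at h3
  have h4 := L.add_mem (hb i j k hij) h3
  rwa [sub_add_cancel] at h4

end Pool.Agent.X255.HP
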